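import Pool.Agent.Helper8_CR.Stmts

/-!
# VMUL: the universal invariant is multiplicative for fibre products
-/

set_option autoImplicit false
set_option linter.unusedVariables false

namespace Pool.Agent.Helper8_CR.H87

open MvPolynomial Pool.Agent.Helper6_Mono Pool.Agent.Helper6_Mono.RingPart Pool.Agent.Helper8_CR

variable {k : Type} [Field k] {σ : Type} {f : MvPolynomial σ k}

theorem aeval_inl (V W : GSch f) {S : Type} [CommRing S] [Algebra k S] (y : V.Idx ⊕ W.Idx → S)
    (e : MvPolynomial V.Idx k) :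
    aeval y (rename Sum.inl e : MvPolynomial (V.Idx ⊕ W.Idx) k) =
      aeval (fun i => y (Sum.inl i)) e := by
  rw [aeval_rename]
  rfl

theorem aeval_inr (V W : GSch f) {S : Type} [CommRing S] [Algebra k S] (y : V.Idx ⊕ W.Idx → S)
    (e : MvPolynomial W.Idx k) :
    aeval y (rename Sum.inr e : MvPolynomial (V.Idx ⊕ W.Idx) k) =
      aeval (fun i => y (Sum.inr i)) e := by
  rw [aeval_rename]
  rfl

/-- the points of the product -/
theorem prod_mem_iff (V W : GSch f) {S : Type} [CommRing S] [Algebra k S]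
    (y : V.Idx ⊕ W.Idx → S) :
    (∀ e ∈ (V.prod W).eqs, aeval y e = 0) ↔
      (∀ e ∈ V.eqs, aeval (fun i => y (Sum.inl i)) e = 0) ∧
      (∀ e ∈ W.eqs, aeval (fun i => y (Sum.inr i)) e = 0) ∧
      ∀ i, aeval (fun i => y (Sum.inl i)) (V.pt i) = aeval (fun i => y (Sum.inr i)) (W.pt i) := by
  constructor
  · intro h
    refine ⟨fun e he => ?_, fun e he => ?_, fun i => ?_⟩
    · exact (aeval_inl V W y e).symm.trans (h _ (Or.inl ⟨e, he, rfl⟩))
    · exact (aeval_inr V W y e).symm.trans (h _ (Or.inr (Or.inl ⟨e, he, rfl⟩)))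
    · have h1 : aeval y (rename Sum.inl (V.pt i) - rename Sum.inr (W.pt i) :
          MvPolynomial (V.Idx ⊕ W.Idx) k) = 0 := h _ (Or.inr (Or.inr ⟨i, rfl⟩))
      rw [map_sub, aeval_inl, aeval_inr] at h1
      exact sub_eq_zero.1 h1
  · rintro ⟨h1, h2, h3⟩ e (⟨e, he, rfl⟩ | ⟨e, he, rfl⟩ | ⟨i, rfl⟩)
    · exact (aeval_inl V W y e).trans (h1 e he)
    · exact (aeval_inr V W y e).trans (h2 e he)
    · show aeval y (rename Sum.inl (V.pt i) - rename Sum.inr (W.pt i) :
          MvPolynomial (V.Idx ⊕ W.Idx) k) = 0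
      rw [map_sub, aeval_inl, aeval_inr, h3 i, sub_self]

theorem pres_fibP [Finite σ] {X Y : Ov k σ} {V W : GSch f} (hV : Pres X V) (hW : Pres Y W) :
    Pres (fibP X Y) (V.prod W) := by
  obtain ⟨e₁, he₁⟩ := hV
  obtain ⟨e₂, he₂⟩ := hW
  have hbase : ∀ (S : Type) [CommRing S] [Algebra k S] (x : (fibP X Y).F.obj S),
      Y.base x.1.2 = X.base x.1.1 := by
    intro S _ _ x
    funext b
    exact (x.2 b).symm
  have hY0 : ∀ (S : Type) [CommRing S] [Algebra k S]
      (x : ((fibP X Y).zero (fNF f (fibP X Y))).F.obj S), aeval (Y.base x.1.1.2) f = 0 := by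
    intro S _ _ x
    have : aeval (X.base x.1.1.1) f = 0 := x.2
    rw [hbase S x.1]
    exact this
  refine ⟨⟨fun S _ _ => ?_, ?_⟩, ?_⟩
  · exact
      { toFun := fun x => ⟨Sum.elim (e₁.eq S ⟨x.1.1.1, x.2⟩).1 (e₂.eq S ⟨x.1.1.2, hY0 S x⟩).1, by
          refine (prod_mem_iff V W _).2 ⟨?_, ?_, ?_⟩
          · exact (e₁.eq S ⟨x.1.1.1, x.2⟩).2
          · exact (e₂.eq S ⟨x.1.1.2, hY0 S x⟩).2
          · intro i
            have h1 := he₁ S ⟨x.1.1.1, x.2⟩ i
            have h2 := he₂ S ⟨x.1.1.2, hY0 S x⟩ i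
            have h3 : (X.pt i).fn x.1.1.1 = (Y.pt i).fn x.1.1.2 := x.1.2 i
            exact h1.trans (h3.trans h2.symm)⟩
        invFun := fun y =>
          have hy := (prod_mem_iff V W _).1 y.2
          ⟨⟨(((e₁.eq S).symm ⟨fun i => y.1 (Sum.inl i), hy.1⟩).1,
             ((e₂.eq S).symm ⟨fun i => y.1 (Sum.inr i), hy.2.1⟩).1), by
              intro b
              have h1 := Over.base_eq' he₁ S ⟨fun i => y.1 (Sum.inl i), hy.1⟩
              have h2 := Over.base_eq' he₂ S ⟨fun i => y.1 (Sum.inr i), hy.2.1⟩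
              have h1b := congrFun h1 b
              have h2b := congrFun h2 b
              exact h1b.trans ((hy.2.2 b).trans h2b.symm)⟩,
            ((e₁.eq S).symm ⟨fun i => y.1 (Sum.inl i), hy.1⟩).2⟩
        left_inv := fun x => by
          apply Subtype.ext
          apply Subtype.ext
          apply Prod.ext
          · show ((e₁.eq S).symm (e₁.eq S ⟨x.1.1.1, x.2⟩)).1 = x.1.1.1
            rw [Equiv.symm_apply_apply]
          · show ((e₂.eq S).symm (e₂.eq S ⟨x.1.1.2, hY0 S x⟩)).1 = x.1.1.2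
            rw [Equiv.symm_apply_apply]
        right_inv := fun y => by
          apply Subtype.ext
          funext i
          cases i with
          | inl i =>
            show (e₁.eq S ((e₁.eq S).symm _)).1 i = y.1 (Sum.inl i)
            rw [Equiv.apply_symm_apply]
          | inr i =>
            show (e₂.eq S ((e₂.eq S).symm _)).1 i = y.1 (Sum.inr i)
            rw [Equiv.apply_symm_apply] }
  · intro S S' _ _ _ _ φ c x
    apply Subtype.ext
    funext i
    cases i with
    | inl i =>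
      have h := e₁.eq_tw φ c ⟨x.1.1.1, x.2⟩
      exact congrArg (fun z : (ov V).F.obj S' => z.1 i) h
    | inr i =>
      have h := e₂.eq_tw φ c ⟨x.1.1.2, hY0 S x⟩
      exact congrArg (fun z : (ov W).F.obj S' => z.1 i) h
  · intro S _ _ x b
    exact (aeval_inl V W _ (V.pt b)).trans (he₁ S ⟨x.1.1.1, x.2⟩ b)

theorem vmul : VmulStmt := by
  intro k _ σ _ f X Y hX hY
  obtain ⟨V, hV⟩ := exists_pres (f := f) hX
  obtain ⟨W, hW⟩ := exists_pres (f := f) hY
  have h : Pres (f := f) (fibP X Y) (V.prod W) := pres_fibP hV hW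
  show val f (fibP X Y) = val f X * val f Y
  rw [val_eq hV, val_eq hW, val_eq h]
  unfold cls
  rw [← map_mul]
  congr 1
  refine (Ideal.Quotient.eq.2 ?_ : Ideal.Quotient.mk (relIdeal f) (MvPolynomial.X (V.prod W)) =
    Ideal.Quotient.mk (relIdeal f) (MvPolynomial.X V * MvPolynomial.X W))
  exact Ideal.subset_span (KRel.prod V W)

end Pool.Agent.Helper8_CR.H87
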