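import Pool.Agent.Helper8_CR.Stmts

/-!
# ZMAP: ring homomorphisms preserve the rings of rational functions
-/

set_option autoImplicit false
set_option linter.unusedVariables false

namespace Pool.Agent.Helper8_CR.H87

open MvPolynomial Pool.Agent.Helper6_Mono Pool.Agent.Helper6_Mono.RingPart Pool.Agent.Helper8_CR

theorem rescale_C' {R : Type 1} [CommRing R] (a r : R) :
    PowerSeries.rescale a (PowerSeries.C r : PowerSeries R) = PowerSeries.C r := by
  ext n
  rw [PowerSeries.coeff_rescale, PowerSeries.coeff_C]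
  split_ifs with h
  · rw [h, pow_zero, one_mul]
  · rw [mul_zero]

section

variable {k : Type} [Field k] {σ τ : Type} [Finite σ] [Finite τ] {F : MvPolynomial τ k}
  {f : MvPolynomial σ k}

theorem map_Lpow (ψ : MM F →+* MM f) (hψ : ψ (LL F : (MM F)ˣ) = ((LL f : (MM f)ˣ) : MM f))
    (a : ℤ) : ψ (Lpow F a) = Lpow f a := by
  have h : Units.map (ψ : MM F →* MM f) (LL F) = LL f := Units.ext hψ
  unfold Lpow
  rw [← h, ← map_zpow]
  rfl

theorem Lpow_add' (a b : ℤ) : Lpow f (a + b) = Lpow f a * Lpow f b := by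
  unfold Lpow
  rw [zpow_add, Units.val_mul]

theorem Lpow_mul' (a : ℤ) (b : ℕ) : Lpow f (a * (b : ℤ)) = Lpow f a ^ b := by
  unfold Lpow
  rw [zpow_mul, zpow_natCast, Units.val_pow_eq_pow_val]

theorem map_denom (ψ : MM F →+* MM f) (hψ : ψ (LL F : (MM F)ˣ) = ((LL f : (MM f)ˣ) : MM f))
    (e a : ℤ) (b : ℕ) :
    PowerSeries.rescale (Lpow f e) (PowerSeries.map ψ (denom F a b)) =
      denom f (a + e * (b : ℤ)) b := by
  unfold denom
  rw [map_sub, map_one, map_sub, map_one, map_mul, map_mul, map_pow, map_pow, PowerSeries.map_C,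
    PowerSeries.map_X, map_Lpow ψ hψ, rescale_C', PowerSeries.rescale_X, Lpow_add',
    Lpow_mul', mul_pow, ← map_pow, map_mul, mul_assoc]

end

theorem zmap : ZmapStmt := by
  classical
  intro k _ σ τ _ _ F f ψ hψ S Z e hZ
  change Z ∈ Algebra.adjoin (MM F) (gens F S) at hZ
  show _ ∈ Algebra.adjoin (MM f) (gens f _)
  set S' : Finset (ℤ × ℕ) := S.image fun p => (p.1 + e * (p.2 : ℤ), p.2) with hS'
  have hX : (PowerSeries.X : PowerSeries (MM f)) ∈ Algebra.adjoin (MM f) (gens f S') :=
    Algebra.subset_adjoin (Or.inl rfl)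
  have hC : ∀ a : MM f, (PowerSeries.C a : PowerSeries (MM f)) ∈
      Algebra.adjoin (MM f) (gens f S') := by
    intro a
    have := (Algebra.adjoin (MM f) (gens f S')).algebraMap_mem a
    rwa [PowerSeries.algebraMap_apply] at this
  induction hZ using Algebra.adjoin_induction with
  | mem x hx =>
    rcases hx with rfl | ⟨p, hp, hx⟩
    · rw [PowerSeries.map_X, PowerSeries.rescale_X]
      exact Subalgebra.mul_mem _ (hC _) hX
    · refine Algebra.subset_adjoin (Or.inr ⟨(p.1 + e * (p.2 : ℤ), p.2), ?_, ?_⟩)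
      · rw [hS']
        exact Finset.mem_image_of_mem (fun p : ℤ × ℕ => (p.1 + e * (p.2 : ℤ), p.2)) hp
      · show _ * denom f (p.1 + e * (p.2 : ℤ)) p.2 = 1
        rw [← map_denom ψ hψ, ← map_mul, ← map_mul, hx, map_one, map_one]
  | algebraMap r =>
    rw [PowerSeries.algebraMap_apply]
    show PowerSeries.rescale (Lpow f e) (PowerSeries.map ψ (PowerSeries.C r)) ∈ _
    rw [PowerSeries.map_C, rescale_C']
    exact hC _
  | add x y _ _ hx hy =>
    rw [map_add, map_add]
    exact Subalgebra.add_mem _ hx hy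
  | mul x y _ _ hx hy =>
    rw [map_mul, map_mul]
    exact Subalgebra.mul_mem _ hx hy

end Pool.Agent.Helper8_CR.H87
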